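import Mathlib

/-!
Definitions for the infinite family of internally self-dual regular polyhedra of type `{p, p}`.
-/

namespace Pool.Agent.W_MP_7f6698_co

/-- A group together with three distinguished elements `r 0, r 1, r 2`. -/
structure MarkedGroup where
  /-- the underlying type of the group -/
  G : Type
  /-- the group structure -/
  [grp : Group G]
  /-- the three distinguished elements -/
  r : Fin 3 → G

attribute [instance] MarkedGroup.grp

/-- The marked group is the automorphism group of an abstract regular polyhedron, that is, a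
string C-group of rank 3: it is generated by `r 0, r 1, r 2`, these are involutions, `r 0` and
`r 2` satisfy `(r 0 * r 2) ^ 2 = 1`, and the intersection property holds. -/
structure IsRegularPolyhedron (P : MarkedGroup) : Prop where
  gen : Subgroup.closure (Set.range P.r) = ⊤
  invol : ∀ i, orderOf (P.r i) = 2
  comm : (P.r 0 * P.r 2) ^ 2 = 1
  inter : Subgroup.closure {P.r 0, P.r 1} ⊓ Subgroup.closure {P.r 1, P.r 2}
    = Subgroup.closure {P.r 1}

/-- Type `{p, q}`. -/
def HasType (P : MarkedGroup) (p q : ℕ) : Prop :=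
  orderOf (P.r 0 * P.r 1) = p ∧ orderOf (P.r 1 * P.r 2) = q

/-- Internal self-duality: some element `g` of the group satisfies
`g⁻¹ * r i * g = r (2 - i)` for `i = 0, 1, 2`. -/
def InternallySelfDual (P : MarkedGroup) : Prop :=
  ∃ g : P.G, g⁻¹ * P.r 0 * g = P.r 2 ∧ g⁻¹ * P.r 1 * g = P.r 1 ∧ g⁻¹ * P.r 2 * g = P.r 0

/-- Isomorphism of polyhedra: a group isomorphism matching the distinguished generators. -/
def Isomorphic (P Q : MarkedGroup) : Prop :=
  ∃ e : P.G ≃* Q.G, ∀ i, e (P.r i) = Q.r i

/-- The permutation `(j, x) ↦ (1 - j, -x)` of `ℤ/p × ℤ/n`. -/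
def t1 (p n : ℕ) : Equiv.Perm (ZMod p × ZMod n) where
  toFun a := (1 - a.1, -a.2)
  invFun a := (1 - a.1, -a.2)
  left_inv a := by ext <;> simp
  right_inv a := by ext <;> simp

/-- The permutation `(j, x) ↦ (-j, -x)` of `ℤ/p × ℤ/n`. -/
def t2 (p n : ℕ) : Equiv.Perm (ZMod p × ZMod n) where
  toFun a := (-a.1, -a.2)
  invFun a := (-a.1, -a.2)
  left_inv a := by ext <;> simp
  right_inv a := by ext <;> simp

/-- The permutation of `ℤ/p × ℤ/n` given by `(1, x) ↦ (1, 1 - x)`, `(-1, x) ↦ (-1, -1 - x)` and
`(j, x) ↦ (j, x)` for `j ≠ 1, -1`. -/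
def t0 (p n : ℕ) : Equiv.Perm (ZMod p × ZMod n) where
  toFun a := (a.1, if a.1 = 1 then 1 - a.2 else if a.1 = -1 then -1 - a.2 else a.2)
  invFun a := (a.1, if a.1 = 1 then 1 - a.2 else if a.1 = -1 then -1 - a.2 else a.2)
  left_inv a := by
    ext
    · rfl
    · dsimp only
      split_ifs <;> ring
  right_inv a := by
    ext
    · rfl
    · dsimp only
      split_ifs <;> ring

/-- The three generators `t1`, `t2`, `t0 * t1 * t0`. -/
def gens (p n : ℕ) : Fin 3 → Equiv.Perm (ZMod p × ZMod n) :=
  ![t1 p n, t2 p n, t0 p n * t1 p n * t0 p n]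

/-- The member of the family with parameters `p` and `n`: the permutation group generated by
`t1`, `t2`, `t0 * t1 * t0`, marked by these generators. -/
def family (p n : ℕ) : MarkedGroup where
  G := Subgroup.closure (Set.range (gens p n))
  r i := ⟨gens p n i, Subgroup.subset_closure (Set.mem_range_self i)⟩

end Pool.Agent.W_MP_7f6698_co
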