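import Pool.Agent.W_MP_7f6698_co.Defs

/-!
Proofs for the infinite family of internally self-dual regular polyhedra of type `{p, p}`.
-/

namespace Pool.Agent.W_MP_7f6698_co

section lemmas

variable {p n : ℕ}

lemma t1_apply (j : ZMod p) (x : ZMod n) : t1 p n (j, x) = (1 - j, -x) := rfl
lemma t2_apply (j : ZMod p) (x : ZMod n) : t2 p n (j, x) = (-j, -x) := rfl
lemma t0_apply (j : ZMod p) (x : ZMod n) : t0 p n (j, x) =
    (j, if j = 1 then 1 - x else if j = -1 then -1 - x else x) := rfl

lemma t1_mul_self : t1 p n * t1 p n = 1 := by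
  ext ⟨j, x⟩ <;> simp [t1_apply]

lemma t2_mul_self : t2 p n * t2 p n = 1 := by
  ext ⟨j, x⟩ <;> simp [t2_apply]

lemma t0_mul_self : t0 p n * t0 p n = 1 := by
  ext ⟨j, x⟩
  · simp [t0_apply]
  · simp only [Equiv.Perm.mul_apply, t0_apply, Equiv.Perm.one_apply]
    split_ifs <;> ring

lemma t0_inv : (t0 p n)⁻¹ = t0 p n := inv_eq_of_mul_eq_one_left t0_mul_self
lemma t1_inv : (t1 p n)⁻¹ = t1 p n := inv_eq_of_mul_eq_one_left t1_mul_self
lemma t2_inv : (t2 p n)⁻¹ = t2 p n := inv_eq_of_mul_eq_one_left t2_mul_self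

lemma one_ne_neg_one (hp : 3 ≤ p) : (1 : ZMod p) ≠ -1 := by
  intro h
  have h2 : ((2 : ℕ) : ZMod p) = 0 := by
    push_cast
    linear_combination h
  rw [ZMod.natCast_eq_zero_iff] at h2
  have := Nat.le_of_dvd (by norm_num) h2
  omega

lemma nat_ne_zero (hp : 5 ≤ p) (k : ℕ) (hk : 0 < k) (hk' : k < 5) : ((k : ℕ) : ZMod p) ≠ 0 := by
  intro h2
  rw [ZMod.natCast_eq_zero_iff] at h2
  have := Nat.le_of_dvd hk h2
  omega

lemma t0_comm_t2 (hp : 3 ≤ p) : t0 p n * t2 p n = t2 p n * t0 p n := by
  have h := one_ne_neg_one hp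
  ext ⟨j, x⟩
  · simp [t0_apply, t2_apply]
  · simp only [Equiv.Perm.mul_apply, t0_apply, t2_apply]
    by_cases h1 : j = 1
    · subst h1
      simp [h.symm]
      ring
    · by_cases h2 : j = -1
      · subst h2
        simp [h.symm]
        ring
      · have h3 : -j ≠ 1 := fun h => h2 (by rw [← h, neg_neg])
        have h4 : -j ≠ -1 := fun h => h1 (neg_injective h)
        simp [h1, h2, h3, h4]

/-- the conjugate of `t0` by `t1` -/
lemma t101_apply (j : ZMod p) (x : ZMod n) : (t1 p n * t0 p n * t1 p n) (j, x) =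
    (j, if j = 0 then -1 - x else if j = 2 then 1 - x else x) := by
  simp only [Equiv.Perm.mul_apply, t0_apply, t1_apply]
  have e1 : (1 - j = 1) ↔ j = 0 := by
    constructor
    · intro h; linear_combination -h
    · intro h; linear_combination -h
  have e2 : (1 - j = -1) ↔ j = 2 := by
    constructor
    · intro h; linear_combination -h
    · intro h; linear_combination -h
  simp only [e1, e2]
  ext
  · ring
  · dsimp only
    split_ifs <;> ring

lemma t0_comm_t101 (hp : 5 ≤ p) :
    t0 p n * (t1 p n * t0 p n * t1 p n) = (t1 p n * t0 p n * t1 p n) * t0 p n := by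
  have h1 : (1 : ZMod p) ≠ 0 := by
    have := nat_ne_zero hp 1 (by norm_num) (by norm_num); simpa using this
  have h2 : (1 : ZMod p) ≠ 2 := by
    intro h; apply h1; linear_combination -h
  have h3 : (-1 : ZMod p) ≠ 0 := by simpa using h1
  have h4 : (-1 : ZMod p) ≠ 2 := by
    intro h
    apply nat_ne_zero hp 3 (by norm_num) (by norm_num)
    push_cast
    linear_combination -h
  generalize hs : t1 p n * t0 p n * t1 p n = s
  have hsa : ∀ (j : ZMod p) (x : ZMod n), s (j, x) =
      (j, if j = 0 then -1 - x else if j = 2 then 1 - x else x) := by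
    intro j x
    rw [← hs]
    exact t101_apply j x
  ext ⟨j, x⟩
  · simp only [Equiv.Perm.mul_apply, hsa, t0_apply]
  · simp only [Equiv.Perm.mul_apply, hsa, t0_apply]
    by_cases c1 : j = 1
    · subst c1; simp [h1, h2]
    · by_cases c2 : j = -1
      · subst c2; simp [h3, h4]
      · simp [c1, c2]

/-- `c = t1 * t2` is the shift `(j, x) ↦ (j + 1, x)`. -/
lemma c_apply (j : ZMod p) (x : ZMod n) : (t1 p n * t2 p n) (j, x) = (j + 1, x) := by
  simp only [Equiv.Perm.mul_apply, t1_apply, t2_apply]
  ext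
  · ring
  · simp

lemma c_pow_apply (k : ℕ) (j : ZMod p) (x : ZMod n) :
    ((t1 p n * t2 p n) ^ k) (j, x) = (j + k, x) := by
  induction k with
  | zero => simp
  | succ k ih =>
    rw [pow_succ', Equiv.Perm.mul_apply, ih, c_apply]
    push_cast
    ext
    · ring
    · rfl

lemma orderOf_c : orderOf (t1 p n * t2 p n) = p := by
  apply Nat.dvd_antisymm
  · apply orderOf_dvd_of_pow_eq_one
    ext ⟨j, x⟩ <;> simp [c_pow_apply]
  · have h := pow_orderOf_eq_one (t1 p n * t2 p n)
    have h2 := congrArg (fun f : Equiv.Perm (ZMod p × ZMod n) => (f (0, 0)).1) h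
    simp only [c_pow_apply, Equiv.Perm.one_apply, zero_add] at h2
    exact (ZMod.natCast_eq_zero_iff _ _).1 h2

/-- The gauge change. -/
def gauge (p n : ℕ) (a : ZMod p × ZMod n) : ZMod n := if a.1 = 0 ∨ a.1 = -1 then a.2 else 1 - a.2

/-- the Petrie element `g = t0 * t1 * t2` -/
lemma g_apply (hp : 5 ≤ p) (a : ZMod p × ZMod n) :
    ((t0 p n * t1 p n * t2 p n) a).1 = a.1 + 1 ∧
    gauge p n ((t0 p n * t1 p n * t2 p n) a) =
      gauge p n a - (if a.1 = -2 then 2 else 0) := by
  obtain ⟨j, x⟩ := a
  have h1 : (1 : ZMod p) ≠ 0 := by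
    have := nat_ne_zero hp 1 (by norm_num) (by norm_num); simpa using this
  have h2 : (2 : ZMod p) ≠ 0 := by
    have := nat_ne_zero hp 2 (by norm_num) (by norm_num); simpa using this
  have h3 : (3 : ZMod p) ≠ 0 := by
    have := nat_ne_zero hp 3 (by norm_num) (by norm_num); simpa using this
  rw [mul_assoc, Equiv.Perm.mul_apply, c_apply, t0_apply]
  refine ⟨rfl, ?_⟩
  unfold gauge
  have e0 : (j + 1 = 1) ↔ j = 0 := by
    constructor
    · intro h; linear_combination h
    · intro h; linear_combination h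
  have e1 : (j + 1 = -1) ↔ j = -2 := by
    constructor
    · intro h; linear_combination h
    · intro h; linear_combination h
  have e2 : (j + 1 = 0) ↔ j = -1 := by
    constructor
    · intro h; linear_combination h
    · intro h; linear_combination h
  simp only [e0, e1, e2]
  by_cases c0 : j = 0
  · subst c0
    have : (0 : ZMod p) ≠ -1 := by
      intro h; apply h1; linear_combination h
    have h' : (0 : ZMod p) ≠ -2 := by
      intro h; apply h2; linear_combination h
    simp [this, h']
  · by_cases c1 : j = -1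
    · subst c1
      have : (-1 : ZMod p) ≠ -2 := by
        intro h; apply h1; linear_combination h
      simp [this, h1]
    · by_cases c2 : j = -2
      · subst c2
        have h' : (-2 : ZMod p) ≠ -1 := by
          intro h; apply h1; linear_combination -h
        simp [h2, h']
        ring
      · simp [c0, c1, c2]

lemma g_pow_apply (hp : 5 ≤ p) (k : ℕ) (a : ZMod p × ZMod n) :
    (((t0 p n * t1 p n * t2 p n) ^ k) a).1 = a.1 + k ∧
    gauge p n (((t0 p n * t1 p n * t2 p n) ^ k) a) =
      gauge p n a - ∑ i ∈ Finset.range k, (if a.1 + i = -2 then 2 else 0) := by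
  induction k with
  | zero => simp
  | succ k ih =>
    rw [pow_succ', Equiv.Perm.mul_apply]
    obtain ⟨i1, i2⟩ := ih
    obtain ⟨g1, g2⟩ := g_apply hp (((t0 p n * t1 p n * t2 p n) ^ k) a)
    refine ⟨?_, ?_⟩
    · rw [g1, i1]; push_cast; ring
    · rw [g2, i1, i2, Finset.sum_range_succ]; ring

lemma sum_period (hp : 5 ≤ p) (j : ZMod p) :
    ∑ i ∈ Finset.range p, (if j + i = -2 then (2 : ZMod n) else 0) = 2 := by
  have : NeZero p := ⟨by omega⟩
  have key : ∀ i ∈ Finset.range p, (j + (i : ZMod p) = -2 ↔ i = (-2 - j).val) := by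
    intro i hi
    rw [Finset.mem_range] at hi
    constructor
    · intro h
      have : (i : ZMod p) = -2 - j := by linear_combination h
      rw [← this, ZMod.val_natCast, Nat.mod_eq_of_lt hi]
    · intro h
      rw [h, ZMod.natCast_val, ZMod.cast_id', id]
      ring
  rw [Finset.sum_congr rfl (fun i hi => by rw [if_congr (key i hi) rfl rfl])]
  rw [Finset.sum_ite_eq']
  simp [ZMod.val_lt]

lemma gauge_inj {a b : ZMod p × ZMod n} (h1 : a.1 = b.1) (h2 : gauge p n a = gauge p n b) :
    a = b := by
  unfold gauge at h2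
  rw [h1] at h2
  split_ifs at h2
  · exact Prod.ext h1 h2
  · exact Prod.ext h1 (by linear_combination -h2)

lemma g_pow_p (hp : 5 ≤ p) (a : ZMod p × ZMod n) :
    (((t0 p n * t1 p n * t2 p n) ^ p) a).1 = a.1 ∧
    gauge p n (((t0 p n * t1 p n * t2 p n) ^ p) a) = gauge p n a - 2 := by
  obtain ⟨h1, h2⟩ := g_pow_apply hp p a
  rw [sum_period hp] at h2
  exact ⟨by simpa using h1, h2⟩

lemma g_pow_p_pow (hp : 5 ≤ p) (m : ℕ) (a : ZMod p × ZMod n) :
    ((((t0 p n * t1 p n * t2 p n) ^ p) ^ m) a).1 = a.1 ∧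
    gauge p n ((((t0 p n * t1 p n * t2 p n) ^ p) ^ m) a) = gauge p n a - 2 * m := by
  induction m with
  | zero => simp
  | succ m ih =>
    rw [pow_succ', Equiv.Perm.mul_apply]
    obtain ⟨i1, i2⟩ := ih
    obtain ⟨g1, g2⟩ := g_pow_p hp ((((t0 p n * t1 p n * t2 p n) ^ p) ^ m) a)
    refine ⟨?_, ?_⟩
    · rw [g1, i1]
    · rw [g2, i2]; push_cast; ring

lemma orderOf_g (hp : 5 ≤ p) (hn : Odd n) :
    orderOf (t0 p n * t1 p n * t2 p n) = p * n := by
  apply Nat.dvd_antisymm
  · apply orderOf_dvd_of_pow_eq_one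
    rw [pow_mul]
    apply Equiv.ext
    intro a
    obtain ⟨h1, h2⟩ := g_pow_p_pow hp n a
    apply gauge_inj
    · simpa using h1
    · simpa using h2
  · have h := pow_orderOf_eq_one (t0 p n * t1 p n * t2 p n)
    generalize hd : orderOf (t0 p n * t1 p n * t2 p n) = d at h
    have hpd : p ∣ d := by
      obtain ⟨h1, -⟩ := g_pow_apply (n := n) hp d (0, 0)
      rw [h] at h1
      simp only [Equiv.Perm.one_apply, zero_add] at h1
      exact (ZMod.natCast_eq_zero_iff _ _).1 h1.symm
    obtain ⟨m, rfl⟩ := hpd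
    apply Nat.mul_dvd_mul_left
    rw [pow_mul] at h
    obtain ⟨-, h2⟩ := g_pow_p_pow (n := n) hp m (0, 0)
    rw [h] at h2
    have h3 : ((2 * m : ℕ) : ZMod n) = 0 := by
      push_cast
      simp only [Equiv.Perm.one_apply] at h2
      linear_combination h2
    rw [ZMod.natCast_eq_zero_iff] at h3
    exact (Nat.Coprime.dvd_mul_left (Nat.Coprime.symm (Nat.coprime_two_left.2 hn))).1 h3

/-- the group generated by the three permutations -/
def H (p n : ℕ) : Subgroup (Equiv.Perm (ZMod p × ZMod n)) :=
  Subgroup.closure (Set.range (gens p n))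

lemma gens_mem (i : Fin 3) : gens p n i ∈ H p n :=
  Subgroup.subset_closure (Set.mem_range_self i)

lemma t1_mem : t1 p n ∈ H p n := gens_mem 0
lemma t2_mem : t2 p n ∈ H p n := gens_mem 1
lemma t010_mem : t0 p n * t1 p n * t0 p n ∈ H p n := gens_mem 2

/-- The crucial point: `t0` lies in the group generated by `t1`, `t2`, `t0 * t1 * t0`. -/
lemma t0_mem (hp : 5 ≤ p) (hpo : Odd p) (hn : Odd n) : t0 p n ∈ H p n := by
  set g := t0 p n * t1 p n * t2 p n with hg
  -- the square of `g` is in `H`
  have hgg : g ^ 2 = (t0 p n * t1 p n * t0 p n) * t2 p n * t1 p n * t2 p n := by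
    rw [hg, pow_two]
    have := t0_comm_t2 (p := p) (n := n) (by omega)
    calc t0 p n * t1 p n * t2 p n * (t0 p n * t1 p n * t2 p n)
        = t0 p n * t1 p n * (t2 p n * t0 p n) * t1 p n * t2 p n := by group
      _ = t0 p n * t1 p n * (t0 p n * t2 p n) * t1 p n * t2 p n := by rw [this]
      _ = _ := by group
  have hg2 : g ^ 2 ∈ H p n := by
    rw [hgg]
    exact mul_mem (mul_mem (mul_mem t010_mem t2_mem) t1_mem) t2_mem
  obtain ⟨k, hk⟩ := hpo.mul hn
  have hord : g ^ (p * n) = 1 := by
    rw [← orderOf_g hp hn]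
    exact pow_orderOf_eq_one g
  have hgmem : g ∈ H p n := by
    have e : g = (g ^ 2) ^ (k + 1) := by
      rw [← pow_mul]
      have : 2 * (k + 1) = p * n + 1 := by omega
      rw [this, pow_succ, hord, one_mul]
    rw [e]
    exact pow_mem hg2 _
  have e : t0 p n = g * (t2 p n * t1 p n) := by
    rw [hg]
    calc t0 p n = t0 p n * (t1 p n * (t2 p n * t2 p n) * t1 p n) := by
            rw [t2_mul_self, mul_one, t1_mul_self, mul_one]
      _ = _ := by group
  rw [e]
  exact mul_mem hgmem (mul_mem t2_mem t1_mem)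

/-- Elements of the dihedral group generated by `t1` and `t2`. -/
lemma dihedral_form {g : Equiv.Perm (ZMod p × ZMod n)}
    (hg : g ∈ Subgroup.closure {t1 p n, t2 p n}) :
    (∃ k : ZMod p, ∀ j x, g (j, x) = (j + k, x)) ∨ (∃ k : ZMod p, ∀ j x, g (j, x) = (k - j, -x)) := by
  induction hg using Subgroup.closure_induction with
  | mem y hy =>
    rcases hy with rfl | rfl
    · right; exact ⟨1, fun j x => rfl⟩
    · right; refine ⟨0, fun j x => ?_⟩
      rw [t2_apply, zero_sub]
  | one => left; exact ⟨0, fun j x => by simp⟩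
  | mul y z _ _ hy hz =>
    rcases hy with ⟨k, hk⟩ | ⟨k, hk⟩ <;> rcases hz with ⟨l, hl⟩ | ⟨l, hl⟩
    · left; refine ⟨l + k, fun j x => ?_⟩
      rw [Equiv.Perm.mul_apply, hl, hk, add_assoc]
    · right; refine ⟨l + k, fun j x => ?_⟩
      rw [Equiv.Perm.mul_apply, hl, hk]
      ext
      · ring
      · rfl
    · right; refine ⟨k - l, fun j x => ?_⟩
      rw [Equiv.Perm.mul_apply, hl, hk]
      ext
      · ring
      · rfl
    · left; refine ⟨k - l, fun j x => ?_⟩
      rw [Equiv.Perm.mul_apply, hl, hk]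
      ext
      · ring
      · simp
  | inv y _ hy =>
    rcases hy with ⟨k, hk⟩ | ⟨k, hk⟩
    · left; refine ⟨-k, fun j x => ?_⟩
      rw [Equiv.Perm.inv_eq_iff_eq, hk]
      simp
    · right; refine ⟨k, fun j x => ?_⟩
      rw [Equiv.Perm.inv_eq_iff_eq, hk]
      simp

lemma conj_mem {g : Equiv.Perm (ZMod p × ZMod n)} (hp : 3 ≤ p)
    (hg : g ∈ Subgroup.closure {t2 p n, t0 p n * t1 p n * t0 p n}) :
    t0 p n * g * t0 p n ∈ Subgroup.closure {t1 p n, t2 p n} := by
  induction hg using Subgroup.closure_induction with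
  | mem y hy =>
    rcases hy with rfl | rfl
    · have : t0 p n * t2 p n * t0 p n = t2 p n := by
        rw [t0_comm_t2 hp, mul_assoc, t0_mul_self, mul_one]
      rw [this]
      exact Subgroup.subset_closure (by simp)
    · have : t0 p n * (t0 p n * t1 p n * t0 p n) * t0 p n = t1 p n := by
        calc t0 p n * (t0 p n * t1 p n * t0 p n) * t0 p n
            = (t0 p n * t0 p n) * t1 p n * (t0 p n * t0 p n) := by group
          _ = t1 p n := by rw [t0_mul_self, one_mul, mul_one]
      rw [this]
      exact Subgroup.subset_closure (by simp)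
  | one => rw [mul_one, t0_mul_self]; exact one_mem _
  | mul y z _ _ hy hz =>
    have : t0 p n * (y * z) * t0 p n = (t0 p n * y * t0 p n) * (t0 p n * z * t0 p n) := by
      calc t0 p n * (y * z) * t0 p n = t0 p n * y * 1 * z * t0 p n := by group
        _ = t0 p n * y * (t0 p n * t0 p n) * z * t0 p n := by rw [t0_mul_self]
        _ = _ := by group
    rw [this]
    exact mul_mem hy hz
  | inv y _ hy =>
    have : t0 p n * y⁻¹ * t0 p n = (t0 p n * y * t0 p n)⁻¹ := by
      rw [mul_inv_rev, mul_inv_rev, t0_inv, mul_assoc]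
    rw [this]
    exact inv_mem hy

lemma inter_aux (hp : 5 ≤ p) (hn3 : 3 ≤ n) {g : Equiv.Perm (ZMod p × ZMod n)}
    (h1 : g ∈ Subgroup.closure {t1 p n, t2 p n})
    (h2 : g ∈ Subgroup.closure {t2 p n, t0 p n * t1 p n * t0 p n}) :
    g = 1 ∨ g = t2 p n := by
  have h3 := dihedral_form (conj_mem (by omega) h2)
  have hz : ((t0 p n * g * t0 p n) (1, 0)).2 = 0 := by
    rcases h3 with ⟨k, hk⟩ | ⟨k, hk⟩
    · rw [hk]
    · rw [hk]; simp
  have h10 : (t0 p n) (1, 0) = (1, 1) := by
    rw [t0_apply]; simp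
  have hone : (1 : ZMod n) ≠ 0 := by
    intro h
    have : ((1 : ℕ) : ZMod n) = 0 := by push_cast; exact h
    rw [ZMod.natCast_eq_zero_iff] at this
    have := Nat.le_of_dvd (by norm_num) this
    omega
  have htwo : (2 : ZMod n) ≠ 0 := by
    intro h
    have : ((2 : ℕ) : ZMod n) = 0 := by push_cast; exact h
    rw [ZMod.natCast_eq_zero_iff] at this
    have := Nat.le_of_dvd (by norm_num) this
    omega
  rcases dihedral_form h1 with ⟨k, hk⟩ | ⟨k, hk⟩
  · left
    rw [Equiv.Perm.mul_apply, Equiv.Perm.mul_apply, h10, hk, t0_apply] at hz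
    dsimp only at hz
    have hk0 : k = 0 := by
      split_ifs at hz with c1 c2
      · linear_combination c1
      · exfalso; apply htwo; linear_combination -hz
      · exact absurd hz hone
    apply Equiv.ext
    rintro ⟨j, x⟩
    rw [hk, hk0]; simp
  · right
    rw [Equiv.Perm.mul_apply, Equiv.Perm.mul_apply, h10, hk, t0_apply] at hz
    dsimp only at hz
    have hk0 : k = 0 := by
      split_ifs at hz with c1 c2
      · exfalso; apply htwo; linear_combination hz
      · linear_combination c2
      · exfalso; apply hone; linear_combination -hz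
    apply Equiv.ext
    rintro ⟨j, x⟩
    rw [hk, hk0, t2_apply]; simp

lemma orderOf_t1 (hp : 3 ≤ p) : orderOf (t1 p n) = 2 := by
  apply orderOf_eq_prime (by rw [pow_two, t1_mul_self])
  intro h
  have h2 := congrArg (fun f : Equiv.Perm (ZMod p × ZMod n) => (f (0, 0)).1) h
  simp only [t1_apply, Equiv.Perm.one_apply, sub_zero] at h2
  exact one_ne_neg_one hp (by linear_combination 2 * h2)

lemma orderOf_t2 (hp : 3 ≤ p) : orderOf (t2 p n) = 2 := by
  apply orderOf_eq_prime (by rw [pow_two, t2_mul_self])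
  intro h
  have h2 := congrArg (fun f : Equiv.Perm (ZMod p × ZMod n) => (f (1, 0)).1) h
  simp only [t2_apply, Equiv.Perm.one_apply] at h2
  exact one_ne_neg_one hp h2.symm

lemma orderOf_t010 (hp : 3 ≤ p) : orderOf (t0 p n * t1 p n * t0 p n) = 2 := by
  rw [← orderOf_t1 (p := p) (n := n) hp]
  have : t0 p n * t1 p n * t0 p n = MulAut.conj (t0 p n) (t1 p n) := by
    rw [MulAut.conj_apply, t0_inv]
  rw [this]
  exact orderOf_injective (MulAut.conj (t0 p n)).toMonoidHom (MulAut.conj (t0 p n)).injective _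

/-- the inclusion of the group of `family p n` in the symmetric group -/
def val (p n : ℕ) : (family p n).G →* Equiv.Perm (ZMod p × ZMod n) := (H p n).subtype

lemma val_injective : Function.Injective (val p n) := (H p n).subtype_injective

lemma val_r0 : val p n ((family p n).r 0) = t1 p n := rfl
lemma val_r1 : val p n ((family p n).r 1) = t2 p n := rfl
lemma val_r2 : val p n ((family p n).r 2) = t0 p n * t1 p n * t0 p n := rfl

lemma orderOf_val (x : (family p n).G) : orderOf (val p n x) = orderOf x :=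
  orderOf_injective (val p n) val_injective x

lemma val_mem_closure {S : Set (Equiv.Perm (ZMod p × ZMod n))} {x : (family p n).G}
    {T : Set (family p n).G} (hT : ∀ y ∈ T, val p n y ∈ S)
    (hx : x ∈ Subgroup.closure T) : val p n x ∈ Subgroup.closure S := by
  have h := Subgroup.mem_map_of_mem (val p n) hx
  rw [MonoidHom.map_closure] at h
  refine Subgroup.closure_mono ?_ h
  rintro _ ⟨y, hy, rfl⟩
  exact hT y hy

lemma family_gen : Subgroup.closure (Set.range (family p n).r) = ⊤ := by
  have h := Subgroup.closure_closure_coe_preimage (k := Set.range (gens p n))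
  have h2 : (Subgroup.closure (Set.range (family p n).r) : Subgroup (family p n).G) ≥
      (Subgroup.closure (((↑) : (H p n) → Equiv.Perm (ZMod p × ZMod n)) ⁻¹'
        (Set.range (gens p n))) : Subgroup (H p n)) := by
    apply Subgroup.closure_mono
    rintro ⟨y, hy⟩ hy'
    obtain ⟨i, hi⟩ := hy'
    exact ⟨i, Subtype.ext hi⟩
  exact top_le_iff.1 (le_trans (le_of_eq h.symm) h2)

lemma family_isRegularPolyhedron (hp : 5 ≤ p) (hn3 : 3 ≤ n) :
    IsRegularPolyhedron (family p n) where
  gen := family_gen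
  invol i := by
    rw [← orderOf_val]
    fin_cases i
    · exact orderOf_t1 (by omega)
    · exact orderOf_t2 (by omega)
    · exact orderOf_t010 (by omega)
  comm := by
    apply val_injective
    rw [map_pow, map_mul, val_r0, val_r2, map_one]
    have h := t0_comm_t101 (p := p) (n := n) hp
    rw [pow_two]
    calc t1 p n * (t0 p n * t1 p n * t0 p n) * (t1 p n * (t0 p n * t1 p n * t0 p n))
        = (t1 p n * t0 p n * t1 p n) * (t0 p n * (t1 p n * t0 p n * t1 p n)) * t0 p n := by group
      _ = (t1 p n * t0 p n * t1 p n) * ((t1 p n * t0 p n * t1 p n) * t0 p n) * t0 p n := by rw [h]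
      _ = t1 p n * t0 p n * (t1 p n * t1 p n) * t0 p n * t1 p n * (t0 p n * t0 p n) := by group
      _ = t1 p n * t0 p n * t0 p n * t1 p n := by rw [t0_mul_self, t1_mul_self]; group
      _ = t1 p n * (t0 p n * t0 p n) * t1 p n := by group
      _ = 1 := by rw [t0_mul_self, mul_one, t1_mul_self]
  inter := by
    apply le_antisymm
    · rintro x ⟨hx1, hx2⟩
      have h1 : val p n x ∈ Subgroup.closure {t1 p n, t2 p n} := by
        refine val_mem_closure ?_ hx1
        rintro y (rfl | rfl)
        · left; rfl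
        · right; rfl
      have h2 : val p n x ∈
          Subgroup.closure {t2 p n, t0 p n * t1 p n * t0 p n} := by
        refine val_mem_closure ?_ hx2
        rintro y (rfl | rfl)
        · left; rfl
        · right; rfl
      rcases inter_aux hp hn3 h1 h2 with h | h
      · have : x = 1 := val_injective (h.trans (map_one _).symm)
        rw [this]; exact one_mem _
      · have : x = (family p n).r 1 := val_injective h
        rw [this]; exact Subgroup.subset_closure rfl
    · rw [Subgroup.closure_le]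
      rintro _ rfl
      exact ⟨Subgroup.subset_closure (by simp), Subgroup.subset_closure (by simp)⟩

lemma family_hasType (hp : 5 ≤ p) : HasType (family p n) p p := by
  constructor
  · rw [← orderOf_val, map_mul, val_r0, val_r1]
    exact orderOf_c
  · rw [← orderOf_val, map_mul, val_r1, val_r2]
    have h := t0_comm_t2 (p := p) (n := n) (by omega)
    have e : t2 p n * (t0 p n * t1 p n * t0 p n) = MulAut.conj (t0 p n) ((t1 p n * t2 p n)⁻¹) := by
      rw [MulAut.conj_apply, t0_inv, mul_inv_rev, t1_inv, t2_inv]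
      calc t2 p n * (t0 p n * t1 p n * t0 p n) = (t2 p n * t0 p n) * t1 p n * t0 p n := by group
        _ = (t0 p n * t2 p n) * t1 p n * t0 p n := by rw [h]
        _ = _ := by group
    rw [e]
    have e2 := orderOf_injective (MulAut.conj (t0 p n)).toMonoidHom
      (MulAut.conj (t0 p n)).injective ((t1 p n * t2 p n)⁻¹)
    rw [orderOf_inv, orderOf_c] at e2
    exact e2

lemma family_internallySelfDual (hp : 5 ≤ p) (hpo : Odd p) (hn : Odd n) :
    InternallySelfDual (family p n) := by
  obtain ⟨g, hg⟩ : ∃ g : (family p n).G, val p n g = t0 p n := ⟨⟨t0 p n, t0_mem hp hpo hn⟩, rfl⟩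
  refine ⟨g, ?_, ?_, ?_⟩
  · apply val_injective
    rw [map_mul, map_mul, map_inv, hg, val_r0, val_r2, t0_inv]
  · apply val_injective
    rw [map_mul, map_mul, map_inv, hg, val_r1, t0_inv, t0_comm_t2 (by omega), mul_assoc,
      t0_mul_self, mul_one]
  · apply val_injective
    rw [map_mul, map_mul, map_inv, hg, val_r2, val_r0, t0_inv]
    calc t0 p n * (t0 p n * t1 p n * t0 p n) * t0 p n
            = (t0 p n * t0 p n) * t1 p n * (t0 p n * t0 p n) := by group
      _ = t1 p n := by rw [t0_mul_self, one_mul, mul_one]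

lemma orderOf_word (hp : 5 ≤ p) (hpo : Odd p) (hn : Odd n) :
    orderOf ((family p n).r 2 * (family p n).r 1 * (family p n).r 0 * (family p n).r 1)
      = p * n := by
  rw [← orderOf_val, map_mul, map_mul, map_mul, val_r0, val_r1, val_r2]
  have hgg : (t0 p n * t1 p n * t2 p n) ^ 2 =
      (t0 p n * t1 p n * t0 p n) * t2 p n * t1 p n * t2 p n := by
    rw [pow_two]
    have := t0_comm_t2 (p := p) (n := n) (by omega)
    calc t0 p n * t1 p n * t2 p n * (t0 p n * t1 p n * t2 p n)
        = t0 p n * t1 p n * (t2 p n * t0 p n) * t1 p n * t2 p n := by group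
      _ = t0 p n * t1 p n * (t0 p n * t2 p n) * t1 p n * t2 p n := by rw [this]
      _ = _ := by group
  rw [← hgg, Nat.Coprime.orderOf_pow, orderOf_g hp hn]
  rw [orderOf_g hp hn, Nat.coprime_two_right]
  exact hpo.mul hn

lemma family_not_isomorphic {m n : ℕ} (hp : 5 ≤ p) (hpo : Odd p) (hm : Odd m) (hn : Odd n)
    (hmn : m ≠ n) : ¬ Isomorphic (family p m) (family p n) := by
  rintro ⟨e, he⟩
  have h1 := orderOf_word hp hpo hm
  have h2 := orderOf_word hp hpo hn
  rw [← he 0, ← he 1, ← he 2, ← map_mul, ← map_mul, ← map_mul] at h2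
  rw [e.orderOf_eq, h1] at h2
  exact hmn (Nat.eq_of_mul_eq_mul_left (by omega) h2)

end lemmas

end Pool.Agent.W_MP_7f6698_co
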